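import Pool.Agent.Helper155_HH.Main

/-!
# The optimal constant in the Hermite-Hadamard inequality for convex functions is at least `n`

For every `n ≥ 2` and every `c < n` there are an open simplex `Ω` of `ℝⁿ` and a function
`f = max ℓ 0` with `ℓ` affine for which
`|Ω|⁻¹ ∫_Ω f dx ≤ c |∂Ω|⁻¹ ∫_∂Ω f dσ` fails. Hence every constant `c` for which the inequality
holds for all convex domains and all nonnegative convex functions satisfies `c ≥ n`.
-/

set_option autoImplicit false

open MeasureTheory Set Measure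
open Pool.Agent.Helper155_HH

namespace Pool.Agent.Results.MP_a32717_an.ConvexConstantLower

/-- A convex domain of `ℝⁿ`: a nonempty bounded open convex set. -/
structure IsConvexDomain {n : ℕ} (Ω : Set (EuclideanSpace ℝ (Fin n))) : Prop where
  isOpen : IsOpen Ω
  convex : Convex ℝ Ω
  isBounded : Bornology.IsBounded Ω
  nonempty : Ω.Nonempty

/-- The surface measure of `ℝⁿ`: the `(n-1)`-dimensional Hausdorff measure, with the normalisation
for which `μHE[d]` is the Lebesgue measure on `d`-dimensional Euclidean spaces. -/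
noncomputable def surf (n : ℕ) : Measure (EuclideanSpace ℝ (Fin n)) := μHE[n - 1]

/-- The inequality `|Ω|⁻¹ ∫_Ω f dx ≤ c |∂Ω|⁻¹ ∫_∂Ω f dσ`. -/
def HHIneq {n : ℕ} (c : ℝ) (Ω : Set (EuclideanSpace ℝ (Fin n))) (f : EuclideanSpace ℝ (Fin n) → ℝ) :
    Prop :=
  (1 / volume.real Ω) * ∫ x in Ω, f x
    ≤ (c / (surf n).real (frontier Ω)) * ∫ x in frontier Ω, f x ∂(surf n)

/-- `c` is admissible for the class of convex functions in dimension `n`: the inequality holds with
the constant `c` for every convex domain `Ω` and every function which is continuous and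
nonnegative on the closure of `Ω` and convex on `Ω`. -/
def AdmissibleConvex (n : ℕ) (c : ℝ) : Prop :=
  ∀ Ω : Set (EuclideanSpace ℝ (Fin n)), IsConvexDomain Ω →
    ∀ f : EuclideanSpace ℝ (Fin n) → ℝ, ContinuousOn f (closure Ω) → (∀ x ∈ closure Ω, 0 ≤ f x) →
      ConvexOn ℝ Ω f → HHIneq c Ω f

/-- The set `{x : x_i > 0 for all i, ∑ a_i x_i < 1}`, an open simplex when all `a_i > 0`. -/
def simplex {n : ℕ} (a : Fin n → ℝ) : Set (EuclideanSpace ℝ (Fin n)) :=
  {x | (∀ i, 0 < x i) ∧ ∑ i, a i * x i < 1}

/-- The positive part of the affine function `h - ∑ b_i x_i`. -/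
noncomputable def ridge {n : ℕ} (h : ℝ) (b : Fin n → ℝ) (x : EuclideanSpace ℝ (Fin n)) : ℝ :=
  max (h - ∑ i, b i * x i) 0

theorem simplex_isConvexDomain {n : ℕ} {a : Fin n → ℝ} (ha : ∀ i, 0 < a i) :
    IsConvexDomain (simplex a) := by
  refine ⟨?_, ?_, ?_, ?_⟩
  · have : simplex a = (⋂ i, {x : EuclideanSpace ℝ (Fin n) | 0 < x i}) ∩ {x | ∑ i, a i * x i < 1} := by
      ext x; simp [simplex]
    rw [this]
    exact (isOpen_iInter_of_finite fun i => isOpen_lt continuous_const (by fun_prop)).inter
      (isOpen_lt (by fun_prop) continuous_const)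
  · intro x hx y hy s t hs ht hst
    refine ⟨fun i => (convex_Ioi (0 : ℝ)) (hx.1 i) (hy.1 i) hs ht hst, ?_⟩
    have h1 : s • (∑ i, a i * x i) + t • (∑ i, a i * y i) < 1 :=
      (convex_Iio (1 : ℝ)) hx.2 hy.2 hs ht hst
    have h2 : ∑ i, a i * (s • x + t • y) i = s • (∑ i, a i * x i) + t • (∑ i, a i * y i) := by
      simp only [PiLp.add_apply, PiLp.smul_apply, smul_eq_mul, Finset.mul_sum,
        ← Finset.sum_add_distrib]
      refine Finset.sum_congr rfl fun i _ => ?_
      ring
    rw [h2]
    exact h1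
  · rw [isBounded_iff_forall_norm_le]
    refine ⟨√(∑ i, (1 / a i) ^ 2), fun x hx => ?_⟩
    rw [EuclideanSpace.norm_eq]
    refine Real.sqrt_le_sqrt (Finset.sum_le_sum fun i _ => ?_)
    have h1 : a i * x i ≤ 1 :=
      le_trans (Finset.single_le_sum (f := fun j => a j * x j)
        (fun j _ => (mul_pos (ha j) (hx.1 j)).le) (Finset.mem_univ i)) hx.2.le
    have h2 : x i ≤ 1 / a i := by
      rw [le_div_iff₀ (ha i)]; linarith
    rw [Real.norm_eq_abs, sq_abs]
    exact pow_le_pow_left₀ (hx.1 i).le h2 2
  · refine ⟨WithLp.toLp 2 (fun i => 1 / (((n : ℝ) + 1) * a i)), fun i => ?_, ?_⟩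
    · change 0 < 1 / (((n : ℝ) + 1) * a i)
      have := ha i
      positivity
    · change ∑ i, a i * (1 / (((n : ℝ) + 1) * a i)) < 1
      have : ∀ i, a i * (1 / (((n : ℝ) + 1) * a i)) = 1 / ((n : ℝ) + 1) := by
        intro i
        have := (ha i).ne'
        field_simp
      simp only [this, Finset.sum_const, Finset.card_univ, Fintype.card_fin, nsmul_eq_mul]
      rw [mul_one_div, div_lt_one (by positivity)]
      linarith

theorem ridge_continuous {n : ℕ} (h : ℝ) (b : Fin n → ℝ) : Continuous (ridge h b) := by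
  unfold ridge
  fun_prop

theorem ridge_nonneg {n : ℕ} (h : ℝ) (b : Fin n → ℝ) (x : EuclideanSpace ℝ (Fin n)) :
    0 ≤ ridge h b x := le_max_right _ _

theorem ridge_convexOn {n : ℕ} (h : ℝ) (b : Fin n → ℝ) {Ω : Set (EuclideanSpace ℝ (Fin n))}
    (hΩ : Convex ℝ Ω) : ConvexOn ℝ Ω (ridge h b) := by
  refine ⟨hΩ, ?_⟩
  intro x _ y _ s t hs ht hst
  have h1 : h - ∑ i, b i * (s • x + t • y) i
      = s * (h - ∑ i, b i * x i) + t * (h - ∑ i, b i * y i) := by
    have h2 : ∑ i, b i * (s • x + t • y) i = s * (∑ i, b i * x i) + t * (∑ i, b i * y i) := by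
      simp only [PiLp.add_apply, PiLp.smul_apply, smul_eq_mul, Finset.mul_sum,
        ← Finset.sum_add_distrib]
      refine Finset.sum_congr rfl fun i _ => ?_
      ring
    rw [h2]
    have : h = s * h + t * h := by rw [← add_mul, hst, one_mul]
    linarith
  simp only [ridge, smul_eq_mul]
  rw [h1]
  refine max_le ?_ ?_
  · exact add_le_add (mul_le_mul_of_nonneg_left (le_max_left _ _) hs)
      (mul_le_mul_of_nonneg_left (le_max_left _ _) ht)
  · exact add_nonneg (mul_nonneg hs (le_max_right _ _)) (mul_nonneg ht (le_max_right _ _))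

/-- Let `n ≥ 2`. (1) Every constant admissible for the class of convex functions is at least `n`.
(2) More precisely, for every `c < n` the inequality with the constant `c` fails for an open simplex
(with finite surface measure) and the positive part of an affine function (integrable over the
boundary). -/
theorem result (n : ℕ) (hn : 2 ≤ n) :
    (∀ c : ℝ, AdmissibleConvex n c → (n : ℝ) ≤ c) ∧
    ∀ c : ℝ, c < n → ∃ (a b : Fin n → ℝ) (h : ℝ), (∀ i, 0 < a i) ∧ (∀ i, 0 ≤ b i) ∧ 0 < h ∧
      surf n (frontier (simplex a)) ≠ ⊤ ∧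
      IntegrableOn (ridge h b) (frontier (simplex a)) (surf n) ∧
      ¬ HHIneq c (simplex a) (ridge h b) := by
  obtain ⟨k, rfl⟩ : ∃ k, n = k + 2 := ⟨n - 2, by omega⟩
  have key : ∀ c : ℝ, c < ((k + 2 : ℕ) : ℝ) → ∃ (a b : Fin (k + 2) → ℝ) (h : ℝ),
      (∀ i, 0 < a i) ∧ (∀ i, 0 ≤ b i) ∧ 0 < h ∧
      surf (k + 2) (frontier (simplex a)) ≠ ⊤ ∧
      IntegrableOn (ridge h b) (frontier (simplex a)) (surf (k + 2)) ∧
      ¬ HHIneq c (simplex a) (ridge h b) := by
    intro c hc
    by_contra hcon
    refine absurd (const_ge k (c := c) ?_) (not_le.2 (by push_cast at hc; exact hc))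
    intro w h hw hw1 hh hh1
    set a : Fin (k + 2) → ℝ := Fin.cons (1 / w) (fun _ => 1) with ha
    set b : Fin (k + 2) → ℝ := Fin.cons 0 (fun _ => 1) with hb
    have hΩ : simplex a = Om (k + 1) w := by
      ext x
      simp only [simplex, Om, mem_ofPred_eq, ha, Fin.sum_univ_succ (n := k + 1), Fin.cons_zero,
        Fin.cons_succ, one_mul]
      rw [div_mul_eq_mul_div, one_mul]
    have hf : ridge h b = ff (k + 1) h := by
      funext x
      simp only [ridge, ff, hb, Fin.sum_univ_succ (n := k + 1), Fin.cons_zero, Fin.cons_succ, one_mul,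
        zero_mul, zero_add]
    have ha0 : ∀ i, 0 < a i := by
      intro i
      refine Fin.cases ?_ (fun j => ?_) i
      · simp only [ha, Fin.cons_zero]; positivity
      · simp only [ha, Fin.cons_succ]; exact one_pos
    have hb0 : ∀ i, 0 ≤ b i := by
      intro i
      refine Fin.cases ?_ (fun j => ?_) i
      · simp only [hb, Fin.cons_zero]; exact le_rfl
      · simp only [hb, Fin.cons_succ]; exact zero_le_one
    have hfin : surf (k + 2) (frontier (simplex a)) ≠ ⊤ := by
      rw [hΩ]
      exact (surf_fin k hw).ne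
    have hint : IntegrableOn (ridge h b) (frontier (simplex a)) (surf (k + 2)) := by
      refine Measure.integrableOn_of_bounded (M := h) hfin
        (ridge_continuous h b).measurable.aestronglyMeasurable ?_
      refine (ae_restrict_iff' isClosed_frontier.measurableSet).2 (Filter.Eventually.of_forall ?_)
      intro x hx
      have hcl : ∀ i, 0 ≤ x i := by
        have h1 : closure (simplex a) ⊆ ⋂ i, {x : EuclideanSpace ℝ (Fin (k + 2)) | 0 ≤ x i} := by
          refine closure_minimal ?_ (isClosed_iInter fun i => isClosed_le continuous_const (by fun_prop))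
          intro y hy
          rw [mem_iInter]
          exact fun i => (hy.1 i).le
        have h2 := h1 (frontier_subset_closure hx)
        rw [mem_iInter] at h2
        exact h2
      rw [Real.norm_eq_abs, abs_of_nonneg (ridge_nonneg h b x)]
      refine max_le ?_ hh.le
      have := Finset.sum_nonneg (s := Finset.univ) (fun i (_ : i ∈ Finset.univ) => mul_nonneg (hb0 i) (hcl i))
      linarith
    have hHH : HHIneq c (simplex a) (ridge h b) := by
      by_contra hnot
      exact hcon ⟨a, b, h, ha0, hb0, hh, hfin, hint, hnot⟩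
    rw [hΩ, hf] at hHH
    exact hHH
  refine ⟨fun c hc => ?_, key⟩
  by_contra hlt
  obtain ⟨a, b, h, ha, _, _, _, _, hnot⟩ := key c (not_le.1 hlt)
  exact hnot (hc _ (simplex_isConvexDomain ha) _ (ridge_continuous h b).continuousOn
    (fun x _ => ridge_nonneg h b x) (ridge_convexOn h b (simplex_isConvexDomain ha).convex))

end Pool.Agent.Results.MP_a32717_an.ConvexConstantLower
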